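import Mathlib
import Pool.Agent.Results.MP_e07d6f_an.James

set_option autoImplicit false

open ContinuousLinearMap

namespace Pool.Agent.Results.MP_a30514_an.James

open MP_e07d6f_an.James

section

variable {A : Type} [NormedAddCommGroup A] [NormedSpace ℂ A] (mul : A → A → A)

def Projective {X : Type} [NormedAddCommGroup X] [NormedSpace ℂ X] (aX : A → X → X) : Prop :=
  ∀ (Y : Type) [NormedAddCommGroup Y] [NormedSpace ℂ Y] [CompleteSpace Y] (aY : A → Y → Y),
    IsMod mul aY → ∀ φ : Y →L[ℂ] X, IsHom aY aX φ → (∃ τ : X →L[ℂ] Y, ∀ x, φ (τ x) = x) →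
      ∃ ρ : X →L[ℂ] Y, IsHom aX aY ρ ∧ ∀ x, φ (ρ x) = x

lemma Projective.proj {P : Type} [NormedAddCommGroup P] [NormedSpace ℂ P] [CompleteSpace P]
    {aP : A → P → P} (h : Projective mul aP) (hP : IsMod mul aP) : Proj mul aP := by
  intro X Y _ _ _ _ _ _ aX aY h1 h2 σ h3 ⟨τ, h4⟩ φ h5
  let W : Submodule ℂ (X × P) := LinearMap.eqLocus (σ.comp (fst ℂ X P)).toLinearMap
    (φ.comp (snd ℂ X P)).toLinearMap
  haveI : CompleteSpace W := (isClosed_eq (σ.comp (fst ℂ X P)).continuous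
    (φ.comp (snd ℂ X P)).continuous).completeSpace_coe
  obtain ⟨C, hC, hC'⟩ := h1.1.bound
  obtain ⟨D, hD, hD'⟩ := hP.1.bound
  obtain ⟨ρ, h6, h7⟩ := h W (fun a w => ⟨(aX a w.1.1, aP a w.1.2),
      (h3 a _).trans ((congrArg (aY a) w.2).trans (h5 a _).symm)⟩)
    ⟨⟨fun a b w => Subtype.ext (Prod.ext (h1.1.add_left ..) (hP.1.add_left ..)),
      fun c a w => Subtype.ext (Prod.ext (h1.1.smul_left ..) (hP.1.smul_left ..)),
      fun a v w => Subtype.ext (Prod.ext (h1.1.add_right ..) (hP.1.add_right ..)),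
      fun c a w => Subtype.ext (Prod.ext (h1.1.smul_right ..) (hP.1.smul_right ..)),
      max C D, by positivity, fun a w => max_le
        ((hC' a w.1.1).trans (by gcongr <;> exact le_max_left _ _))
        ((hD' a w.1.2).trans (by gcongr <;> exact le_max_right _ _))⟩,
      fun a b w => Subtype.ext (Prod.ext (h1.2 ..) (hP.2 ..))⟩
    ((snd ℂ X P).comp W.subtypeL) (fun _ _ => rfl)
    ⟨((τ.comp φ).prod (.id ℂ P)).codRestrict W fun p => h4 _, fun _ => rfl⟩
  exact ⟨(fst ℂ X P).comp (W.subtypeL.comp ρ), fun a p => congrArg (fun w : W => w.1.1) (h6 a p),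
    fun p => (ρ p).2.trans (congrArg φ (h7 p))⟩

end

theorem result :
    (∃ (E : Type) (_ : NormedAddCommGroup E) (_ : NormedSpace ℂ E) (_ : CompleteSpace E),
      ¬ Projective (comp E) (comp E)) ∧
    ∃ (E : Type) (_ : NormedAddCommGroup E) (_ : NormedSpace ℂ E) (_ : CompleteSpace E),
      ¬ Projective (compOp E) (compOp E) := by
  obtain ⟨⟨E, _, _, _, -, h1⟩, F, _, _, _, -, h2⟩ := MP_e07d6f_an.James.result
  refine ⟨⟨E, _, _, inferInstance, fun h => h1 (h.proj _ ⟨⟨?_, ?_, ?_, ?_, 1, one_pos,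
    fun a b => ?_⟩, fun _ _ _ => rfl⟩)⟩, F, _, _, inferInstance, fun h => h2 (h.proj _
      ⟨⟨?_, ?_, ?_, ?_, 1, one_pos, fun a b => ?_⟩, fun _ _ _ => rfl⟩)⟩
  · exact fun _ _ _ => Subtype.ext (add_comp _ _ _)
  · exact fun _ _ _ => Subtype.ext (smul_comp _ _ _)
  · exact fun _ _ _ => Subtype.ext (comp_add _ _ _)
  · exact fun _ _ _ => Subtype.ext (comp_smul _ _ _)
  · rw [one_mul]; exact opNorm_comp_le a.1 b.1
  · exact fun _ _ _ => Subtype.ext (comp_add _ _ _)
  · exact fun _ _ _ => Subtype.ext (comp_smul _ _ _)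
  · exact fun _ _ _ => Subtype.ext (add_comp _ _ _)
  · exact fun _ _ _ => Subtype.ext (smul_comp _ _ _)
  · rw [one_mul, mul_comm]; exact opNorm_comp_le b.1 a.1

end Pool.Agent.Results.MP_a30514_an.James
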